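import Mathlib
import Pool.Agent.X171.EL.Stm

/-! Part EL_ABS (backup): the abstract paradox. -/

set_option autoImplicit false

namespace Pool.Agent.X107.EL.ABS

open Set Pool.Agent.X171.EL

section basic

variable {S : Type} [MetricSpace S]

theorem BL_mono {g : S → ℝ} {a L a' L' : ℝ} (h : BL g a L) (ha : a ≤ a') (hL : L ≤ L') :
    BL g a' L' :=
  ⟨fun u => (h.1 u).trans ha,
    fun u v => (h.2 u v).trans (mul_le_mul_of_nonneg_right hL dist_nonneg)⟩

def BLf (g : S → ℝ) : Prop := ∃ a L, 0 ≤ a ∧ 0 ≤ L ∧ BL g a L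

theorem BLf_of {g : S → ℝ} {a L : ℝ} (h : BL g a L) : BLf g :=
  ⟨max a 0, max L 0, le_max_right _ _, le_max_right _ _,
    BL_mono h (le_max_left _ _) (le_max_left _ _)⟩

theorem BLf_add {g h : S → ℝ} (hg : BLf g) (hh : BLf h) : BLf (g + h) := by
  obtain ⟨a, L, _, _, h1⟩ := hg
  obtain ⟨a', L', _, _, h2⟩ := hh
  refine BLf_of (a := a + a') (L := L + L') ⟨fun u => ?_, fun u v => ?_⟩
  · exact (abs_add_le _ _).trans (add_le_add (h1.1 u) (h2.1 u))
  · have : (g + h) u - (g + h) v = (g u - g v) + (h u - h v) := by simp; ring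
    rw [this, add_mul]
    exact (abs_add_le _ _).trans (add_le_add (h1.2 u v) (h2.2 u v))

theorem BLf_neg {g : S → ℝ} (hg : BLf g) : BLf (-g) := by
  obtain ⟨a, L, _, _, h1⟩ := hg
  refine BLf_of (a := a) (L := L) ⟨fun u => ?_, fun u v => ?_⟩
  · simpa using h1.1 u
  · have : (-g) u - (-g) v = -(g u - g v) := by simp; ring
    rw [this, abs_neg]
    exact h1.2 u v

theorem BLf_mul {g h : S → ℝ} (hg : BLf g) (hh : BLf h) : BLf (g * h) := by
  obtain ⟨a, L, ha, hL, h1⟩ := hg
  obtain ⟨a', L', ha', hL', h2⟩ := hh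
  refine BLf_of (a := a * a') (L := L * a' + a * L') ⟨fun u => ?_, fun u v => ?_⟩
  · rw [Pi.mul_apply, abs_mul]
    exact mul_le_mul (h1.1 u) (h2.1 u) (abs_nonneg _) ha
  · have : (g * h) u - (g * h) v = (g u - g v) * h u + g v * (h u - h v) := by simp; ring
    rw [this]
    refine (abs_add_le _ _).trans ?_
    rw [abs_mul, abs_mul]
    have e1 : |g u - g v| * |h u| ≤ (L * dist u v) * a' :=
      mul_le_mul (h1.2 u v) (h2.1 u) (abs_nonneg _) (mul_nonneg hL dist_nonneg)
    have e2 : |g v| * |h u - h v| ≤ a * (L' * dist u v) :=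
      mul_le_mul (h1.1 v) (h2.2 u v) (abs_nonneg _) ha
    calc _ ≤ (L * dist u v) * a' + a * (L' * dist u v) := add_le_add e1 e2
      _ = _ := by ring

theorem BLf_const (c : ℝ) : BLf (fun _ : S => c) :=
  BLf_of (a := |c|) (L := 0) ⟨fun _ => le_rfl, fun u v => by simp⟩

theorem BLf_sum {ι : Type} (s : Finset ι) (f : ι → S → ℝ) (h : ∀ i ∈ s, BLf (f i)) :
    BLf (∑ i ∈ s, f i) := by
  classical
  induction s using Finset.induction_on with
  | empty => rw [Finset.sum_empty]; exact BLf_const (S := S) 0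
  | insert i s hi ih =>
    rw [Finset.sum_insert hi]
    exact BLf_add (h i (Finset.mem_insert_self _ _))
      (ih fun j hj => h j (Finset.mem_insert_of_mem hj))

/-- a small factor -/
theorem BL_small {e g : S → ℝ} {D t a L : ℝ} (ht : 0 < t) (hD : 0 ≤ D) (ha : 0 ≤ a) (hL : 0 ≤ L)
    (hg : BL g a L) (he : ∀ u, g u ≠ 0 → |e u| ≤ D * t)
    (he' : ∀ u v, |e u - e v| ≤ D / t * dist u v) :
    BL (e * g) (D * t * a) (D * (t * L + a / t)) := by
  have hDt : 0 ≤ D * t := by positivity
  refine ⟨fun u => ?_, fun u v => ?_⟩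
  · rw [Pi.mul_apply, abs_mul]
    by_cases hu : g u = 0
    · rw [hu]; simp; positivity
    · exact mul_le_mul (he u hu) (hg.1 u) (abs_nonneg _) hDt
  · have main : ∀ u v, g u ≠ 0 → |(e * g) u - (e * g) v| ≤ D * (t * L + a / t) * dist u v := by
      intro u v hu
      have : (e * g) u - (e * g) v = e u * (g u - g v) + g v * (e u - e v) := by
        simp; ring
      rw [this]
      refine (abs_add_le _ _).trans ?_
      rw [abs_mul, abs_mul]
      have e1 : |e u| * |g u - g v| ≤ (D * t) * (L * dist u v) :=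
        mul_le_mul (he u hu) (hg.2 u v) (abs_nonneg _) hDt
      have e2 : |g v| * |e u - e v| ≤ a * (D / t * dist u v) :=
        mul_le_mul (hg.1 v) (he' u v) (abs_nonneg _) ha
      calc _ ≤ (D * t) * (L * dist u v) + a * (D / t * dist u v) := add_le_add e1 e2
        _ = _ := by ring
    by_cases hu : g u = 0
    · by_cases hv : g v = 0
      · simp [hu, hv]; positivity
      · rw [abs_sub_comm, dist_comm]
        exact main v u hv
    · exact main u v hu

/-- regularisation -/
noncomputable def mol (t : ℝ) (f : S → ℝ) (u : S) : ℝ := ⨅ v : S, (f v + dist u v / t)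

theorem mol_bdd {t : ℝ} (ht : 0 < t) {f : S → ℝ} (h0 : ∀ v, 0 ≤ f v) (u : S) :
    BddBelow (range fun v : S => f v + dist u v / t) :=
  ⟨0, by rintro _ ⟨v, rfl⟩; exact add_nonneg (h0 v) (by positivity)⟩

theorem mol_le {t : ℝ} (ht : 0 < t) {f : S → ℝ} (h0 : ∀ v, 0 ≤ f v) (u v : S) :
    mol t f u ≤ f v + dist u v / t := ciInf_le (mol_bdd ht h0 u) v

theorem mol_nonneg {t : ℝ} (ht : 0 < t) {f : S → ℝ} (h0 : ∀ v, 0 ≤ f v) (u : S) :
    0 ≤ mol t f u := by
  haveI : Nonempty S := ⟨u⟩
  exact le_ciInf fun v => add_nonneg (h0 v) (by positivity)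

theorem mol_self {t : ℝ} (ht : 0 < t) {f : S → ℝ} (h0 : ∀ v, 0 ≤ f v) (u : S) :
    mol t f u ≤ f u := by
  have := mol_le ht h0 u u
  simpa using this

theorem mol_ge {t H : ℝ} (ht : 0 < t) (hH : 0 ≤ H) {f : S → ℝ}
    (hf : ∀ u v, |f u - f v| ^ 2 ≤ H * dist u v) (u : S) : f u - H * t ≤ mol t f u := by
  haveI : Nonempty S := ⟨u⟩
  refine le_ciInf fun v => ?_
  have h1 : |f u - f v| ≤ H * t + dist u v / t := by
    apply abs_le_of_sq_le_sq' _ (by positivity) |> fun h => abs_le.2 h
    have h2 := hf u v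
    rw [sq_abs] at h2
    have h3 : H * dist u v = (H * t) * (dist u v / t) := by field_simp
    have h4 : 0 ≤ H * t := by positivity
    have h5 : 0 ≤ dist u v / t := by positivity
    nlinarith [mul_nonneg h4 h5]
  have := le_abs_self (f u - f v)
  linarith

theorem mol_lip {t : ℝ} (ht : 0 < t) {f : S → ℝ} (h0 : ∀ v, 0 ≤ f v) (u u' : S) :
    |mol t f u - mol t f u'| ≤ 1 / t * dist u u' := by
  haveI : Nonempty S := ⟨u⟩
  have main : ∀ u u' : S, mol t f u - 1 / t * dist u u' ≤ mol t f u' := by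
    intro u u'
    refine le_ciInf fun v => ?_
    have h1 := mol_le ht h0 u v
    have h2 : dist u v / t ≤ dist u u' / t + dist u' v / t := by
      rw [← add_div]
      exact div_le_div_of_nonneg_right (dist_triangle _ _ _) ht.le
    have h3 : 1 / t * dist u u' = dist u u' / t := by ring
    linarith
  rw [abs_le]
  have h1 := main u u'
  have h2 := main u' u
  rw [dist_comm] at h2
  constructor <;> linarith

theorem mol_act {t : ℝ} {f : S → ℝ} {φ : S → S} (h1 : Isometry φ) (h2 : Function.Surjective φ)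
    (u : S) : mol t f (φ u) = mol t (f ∘ φ) u := by
  unfold mol
  rw [← h2.iInf_comp (fun v => f v + dist (φ u) v / t)]
  simp only [h1.dist_eq, Function.comp]

end basic

/-- permutations -/
theorem exists_perm (P A A' : Set ℕ) (hA : A ⊆ P) (hA' : A' ⊆ P) (h1 : A.Infinite)
    (h2 : A'.Infinite) (h3 : (P \ A).Infinite) (h4 : (P \ A').Infinite) :
    ∃ π : Equiv.Perm ℕ, (∀ n, n ∉ P → π n = n) ∧ (∀ n, n ∈ P → π n ∈ P) ∧ π ⁻¹' A = A' := by
  classical
  haveI := h1.to_subtype
  haveI := h2.to_subtype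
  haveI := h3.to_subtype
  haveI := h4.to_subtype
  obtain ⟨e1⟩ : Nonempty (A' ≃ A) := nonempty_equiv_of_countable
  obtain ⟨e2⟩ : Nonempty (↥(P \ A') ≃ ↥(P \ A)) := nonempty_equiv_of_countable
  set f : ℕ → ℕ := fun n => if h : n ∈ A' then (e1 ⟨n, h⟩ : ℕ) else
    if h' : n ∈ P then (e2 ⟨n, h', h⟩ : ℕ) else n with hf
  have f1 : ∀ n (h : n ∈ A'), f n = e1 ⟨n, h⟩ := fun n h => by simp [hf, h]
  have f2 : ∀ n (h : n ∉ A') (h' : n ∈ P), f n = e2 ⟨n, h', h⟩ := fun n h h' => by
    simp [hf, h, h']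
  have f3 : ∀ n, n ∉ P → f n = n := fun n h => by
    have : n ∉ A' := fun h' => h (hA' h')
    simp [hf, h, this]
  have g1 : ∀ n, n ∈ A' → f n ∈ A := fun n h => by rw [f1 n h]; exact (e1 ⟨n, h⟩).2
  have g2 : ∀ n, n ∉ A' → n ∈ P → f n ∈ P \ A := fun n h h' => by
    rw [f2 n h h']; exact (e2 ⟨n, h', h⟩).2
  have hinj : Function.Injective f := by
    intro x y hxy
    by_cases hx : x ∈ A'
    · by_cases hy : y ∈ A'
      · rw [f1 x hx, f1 y hy] at hxy
        have := e1.injective (Subtype.ext hxy)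
        exact congrArg Subtype.val this
      · exfalso
        have hx' := g1 x hx
        rw [hxy] at hx'
        by_cases hyP : y ∈ P
        · exact (g2 y hy hyP).2 hx'
        · rw [f3 y hyP] at hx'
          exact hyP (hA hx')
    · by_cases hxP : x ∈ P
      · have hx' := g2 x hx hxP
        rw [hxy] at hx'
        by_cases hy : y ∈ A'
        · exact absurd (g1 y hy) hx'.2
        · by_cases hyP : y ∈ P
          · rw [f2 x hx hxP, f2 y hy hyP] at hxy
            have := e2.injective (Subtype.ext hxy)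
            exact congrArg Subtype.val this
          · rw [f3 y hyP] at hx'
            exact absurd hx'.1 hyP
      · have hx' : f x ∉ P := by rw [f3 x hxP]; exact hxP
        rw [hxy] at hx'
        by_cases hy : y ∈ A'
        · exact absurd (hA (g1 y hy)) hx'
        · by_cases hyP : y ∈ P
          · exact absurd (g2 y hy hyP).1 hx'
          · rwa [f3 x hxP, f3 y hyP] at hxy
  have hsurj : Function.Surjective f := by
    intro y
    by_cases hy : y ∈ A
    · refine ⟨e1.symm ⟨y, hy⟩, ?_⟩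
      rw [f1 _ (e1.symm ⟨y, hy⟩).2]
      simp
    · by_cases hyP : y ∈ P
      · refine ⟨e2.symm ⟨y, hyP, hy⟩, ?_⟩
        rw [f2 _ (e2.symm ⟨y, hyP, hy⟩).2.2 (e2.symm ⟨y, hyP, hy⟩).2.1]
        simp
      · exact ⟨y, f3 y hyP⟩
  refine ⟨Equiv.ofBijective f ⟨hinj, hsurj⟩, fun n hn => f3 n hn, fun n hn => ?_, ?_⟩
  · by_cases h : n ∈ A'
    · exact hA (g1 n h)
    · exact (g2 n h hn).1
  · ext n
    constructor
    · intro h
      by_contra hn
      have h' : f n ∈ A := h
      by_cases hP : n ∈ P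
      · exact (g2 n hn hP).2 h'
      · rw [f3 n hP] at h'
        exact hP (hA h')
    · intro h
      exact g1 n h

/-- pieces of a residue class -/
def W (k j : ℕ) (I : Set ℕ) : Set ℕ := {n | n % k = j ∧ n / k % 4 ∈ I}

theorem W_inf {k j i : ℕ} (hj : j < k) (hi : i < 4) {I : Set ℕ} (h : i ∈ I) :
    (W k j I).Infinite := by
  have hk : 0 < k := by omega
  apply Set.infinite_of_injective_forall_mem (f := fun q : ℕ => k * (4 * q + i) + j)
  · intro a b hab
    have h1 : k * (4 * a + i) + j = k * (4 * b + i) + j := hab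
    have h2 : k * (4 * a + i) = k * (4 * b + i) := by omega
    have h3 := Nat.eq_of_mul_eq_mul_left hk h2
    omega
  · intro q
    refine ⟨?_, ?_⟩
    · rw [Nat.mul_add_mod]; exact Nat.mod_eq_of_lt hj
    · have : (k * (4 * q + i) + j) / k = 4 * q + i := by
        rw [Nat.mul_add_div hk, Nat.div_eq_of_lt hj]; rfl
      rw [this]
      have : (4 * q + i) % 4 = i := by omega
      rw [this]; exact h

theorem W_perm {k j : ℕ} {I I' : Set ℕ} (hj : j < k) (h1 : ∃ i, i < 4 ∧ i ∈ I)
    (h2 : ∃ i, i < 4 ∧ i ∉ I) (h3 : ∃ i, i < 4 ∧ i ∈ I') (h4 : ∃ i, i < 4 ∧ i ∉ I') :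
    ∃ π : Equiv.Perm ℕ, (∀ n, π n % k = n % k) ∧ π ⁻¹' (W k j I) = W k j I' := by
  have hsub : ∀ I : Set ℕ, W k j I ⊆ {n | n % k = j} := fun I n hn => hn.1
  have hdiff : ∀ I : Set ℕ, (∃ i, i < 4 ∧ i ∉ I) → ({n | n % k = j} \ W k j I).Infinite := by
    rintro I ⟨i, hi, hiI⟩
    refine (W_inf hj hi (I := {i}) rfl).mono ?_
    rintro n ⟨hn1, hn2⟩
    refine ⟨hn1, fun hn => hiI ?_⟩
    have : n / k % 4 = i := hn2
    rw [← this]
    exact hn.2
  obtain ⟨i, hi, hiI⟩ := h1
  obtain ⟨i', hi', hiI'⟩ := h3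
  obtain ⟨π, hπ1, hπ2, hπ3⟩ := exists_perm {n | n % k = j} (W k j I) (W k j I') (hsub I)
    (hsub I') (W_inf hj hi hiI) (W_inf hj hi' hiI') (hdiff I h2) (hdiff I' h4)
  refine ⟨π, fun n => ?_, hπ3⟩
  by_cases hn : n % k = j
  · have : π n % k = j := hπ2 n hn
    rw [this, hn]
  · rw [hπ1 n hn]

theorem W_inv {k j : ℕ} (I : Set ℕ) (π : Equiv.Perm ℕ) (h : ∀ n, π n % (k * 4) = n % (k * 4))
    (hk : 0 < k) : π ⁻¹' (W k j I) = W k j I := by
  ext n
  have h1 := h n
  rw [Nat.mod_mul, Nat.mod_mul] at h1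
  have h2 : π n % k = n % k := by
    have h3 := congrArg (· % k) h1
    simpa using h3
  have h4 : π n / k % 4 = n / k % 4 := by
    rw [h2] at h1
    exact Nat.eq_of_mul_eq_mul_left hk (by omega)
  show (π n % k = j ∧ π n / k % 4 ∈ I) ↔ (n % k = j ∧ n / k % 4 ∈ I)
  rw [h2, h4]

theorem W_union (k j : ℕ) (I I' : Set ℕ) : W k j I ∪ W k j I' = W k j (I ∪ I') := by
  ext n
  simp only [W, mem_union, mem_setOf_eq]
  tauto

theorem W_disj (k j : ℕ) {I I' : Set ℕ} (h : Disjoint I I') : Disjoint (W k j I) (W k j I') := by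
  rw [Set.disjoint_left]
  intro n h1 h2
  exact (Set.disjoint_left.1 h) h1.2 h2.2

theorem W_all (k j : ℕ) : W k j {0, 1, 2, 3} = {n | n % k = j} := by
  ext n
  simp only [W, mem_setOf_eq, mem_insert_iff, mem_singleton_iff]
  constructor
  · exact fun h => h.1
  · intro h
    refine ⟨h, ?_⟩
    omega

section main

variable {S : Type} [MetricSpace S]

/-- the data of the abstract paradox -/
structure Dat (act : Equiv.Perm ℕ → S → S) (ψ : Set ℕ → S → ℝ) (H : ℝ) (ν : (S → ℝ) → ℝ) :
    Prop where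
  iso : ∀ π, Isometry (act π)
  sur : ∀ π, Function.Surjective (act π)
  H0 : 0 ≤ H
  p0 : ∀ A u, 0 ≤ ψ A u
  p1 : ∀ A u, ψ A u ≤ 1
  add : ∀ A B, Disjoint A B → ∀ u, ψ (A ∪ B) u = ψ A u + ψ B u
  hol : ∀ A u v, |ψ A u - ψ A v| ^ 2 ≤ H * dist u v
  inv : ∀ (π : Equiv.Perm ℕ) A u, ψ A (act π u) = ψ (π ⁻¹' A) u
  nadd : ∀ g h, BLf g → BLf h → ν (g + h) = ν g + ν h
  ninv : ∀ π g, BLf g → ν (g ∘ act π) = ν g

def Inv (act : Equiv.Perm ℕ → S → S) (k : ℕ) (g : S → ℝ) : Prop :=
  ∀ π : Equiv.Perm ℕ, (∀ n, π n % k = n % k) → g ∘ act π = g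

theorem nu_zero {act : Equiv.Perm ℕ → S → S} {ψ : Set ℕ → S → ℝ} {H : ℝ} {ν : (S → ℝ) → ℝ}
    (D : Dat act ψ H ν) : ν 0 = 0 := by
  have h := D.nadd 0 0 (BLf_const 0) (BLf_const 0)
  rw [add_zero] at h
  linarith

theorem nu_neg {act : Equiv.Perm ℕ → S → S} {ψ : Set ℕ → S → ℝ} {H : ℝ} {ν : (S → ℝ) → ℝ}
    (D : Dat act ψ H ν) {g : S → ℝ} (hg : BLf g) : ν (-g) = - ν g := by
  have h := D.nadd g (-g) hg (BLf_neg hg)
  rw [add_neg_cancel, nu_zero D] at h
  linarith

theorem nu_sum {act : Equiv.Perm ℕ → S → S} {ψ : Set ℕ → S → ℝ} {H : ℝ} {ν : (S → ℝ) → ℝ}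
    (D : Dat act ψ H ν) {ι : Type} (s : Finset ι) (f : ι → S → ℝ) (h : ∀ i ∈ s, BLf (f i)) :
    ν (∑ i ∈ s, f i) = ∑ i ∈ s, ν (f i) := by
  classical
  induction s using Finset.induction_on with
  | empty => simpa using nu_zero D
  | insert i s hi ih =>
    rw [Finset.sum_insert hi, Finset.sum_insert hi, D.nadd _ _ (h i (Finset.mem_insert_self _ _))
      (BLf_sum _ _ fun j hj => h j (Finset.mem_insert_of_mem hj)),
      ih fun j hj => h j (Finset.mem_insert_of_mem hj)]

theorem psi_sum {act : Equiv.Perm ℕ → S → S} {ψ : Set ℕ → S → ℝ} {H : ℝ} {ν : (S → ℝ) → ℝ}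
    (D : Dat act ψ H ν) (k : ℕ) (hk : 0 < k) (u : S) :
    ∑ j ∈ Finset.range k, ψ {n | n % k = j} u = ψ univ u := by
  have key : ∀ l, ∑ j ∈ Finset.range l, ψ {n | n % k = j} u = ψ {n | n % k < l} u := by
    intro l
    induction l with
    | zero =>
      have h := D.add ∅ ∅ (by simp) u
      have h2 : {n : ℕ | n % k < 0} = ∅ := by ext n; simp
      rw [h2]
      simp at h
      simp [h]
    | succ l ih =>
      rw [Finset.sum_range_succ, ih, ← D.add]
      · congr 1
        ext n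
        simp only [mem_union, mem_setOf_eq]
        omega
      · rw [Set.disjoint_left]
        intro n h1 h2
        simp only [mem_setOf_eq] at h1 h2
        omega
  rw [key k]
  congr 1
  ext n
  simp [Nat.mod_lt n hk]

/-- one step -/
theorem step {act : Equiv.Perm ℕ → S → S} {ψ : Set ℕ → S → ℝ} {H : ℝ} {ν : (S → ℝ) → ℝ}
    (D : Dat act ψ H ν) (k : ℕ) (hk : 0 < k) (t : ℝ) (ht : 0 < t) (g : S → ℝ) (a L : ℝ)
    (ha : 0 ≤ a) (hL : 0 ≤ L) (hg : BL g a L) (hinv : Inv act k g)
    (hs : ∀ u, g u ≠ 0 → ψ univ u = 1) (b : ℝ)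
    (hb : ∀ h : S → ℝ, BL h (((k + 3) * (H + 1)) * t * a)
      (((k + 3) * (H + 1)) * (t * L + a / t)) → Inv act (k * 4) h →
      (∀ u, h u ≠ 0 → ψ univ u = 1) → |ν h| ≤ b) :
    |ν g| ≤ (3 * k + 1) * b := by
  have H0 := D.H0
  set E : ℝ := (k + 3) * (H + 1) with hE
  have hk0 : (0 : ℝ) ≤ k := by positivity
  have hE0 : 0 ≤ E := by positivity
  set p : Set ℕ → S → ℝ := fun A => mol t (ψ A) with hp
  have p0 : ∀ A u, 0 ≤ p A u := fun A u => mol_nonneg ht (D.p0 A) u
  have p1 : ∀ A u, |p A u| ≤ 1 := fun A u => by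
    rw [abs_of_nonneg (p0 A u)]
    exact (mol_self ht (D.p0 A) u).trans (D.p1 A u)
  have p2 : ∀ A u, |p A u - ψ A u| ≤ H * t := fun A u => by
    have h1 := mol_self ht (D.p0 A) u
    have h2 := mol_ge ht H0 (D.hol A) u
    have h3 : 0 ≤ H * t := by positivity
    rw [abs_le]
    constructor <;> simp only [hp] <;> linarith
  have p3 : ∀ A u v, |p A u - p A v| ≤ 1 / t * dist u v := fun A u v =>
    mol_lip ht (D.p0 A) u v
  have p4 : ∀ (π : Equiv.Perm ℕ) A, p A ∘ act π = p (π ⁻¹' A) := fun π A => by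
    funext u
    simp only [hp, Function.comp]
    rw [mol_act (D.iso π) (D.sur π)]
    congr 1
    funext v
    exact D.inv π A v
  have pB : ∀ A, BLf (p A) := fun A => BLf_of (a := 1) (L := 1 / t) ⟨p1 A, p3 A⟩
  have gB : BLf g := BLf_of hg
  have pgB : ∀ A, BLf (p A * g) := fun A => BLf_mul (pB A) gB
  have hm : ∀ (π : Equiv.Perm ℕ) A, (∀ n, π n % k = n % k) →
      ν (p (π ⁻¹' A) * g) = ν (p A * g) := by
    intro π A hπ
    rw [← D.ninv π _ (pgB A), ← p4]
    congr 1
    funext u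
    have := congrFun (hinv π hπ) u
    simp only [Function.comp, Pi.mul_apply] at this ⊢
    rw [this]
  have hinv4 : ∀ π : Equiv.Perm ℕ, (∀ n, π n % (k * 4) = n % (k * 4)) →
      ∀ n, π n % k = n % k := by
    intro π h n
    have h1 := h n
    rw [Nat.mod_mul, Nat.mod_mul] at h1
    have h3 := congrArg (· % k) h1
    simpa using h3
  -- the differences
  set d : Set ℕ → Set ℕ → S → ℝ := fun A B => p (A ∪ B) + (-(p A) + -(p B)) with hd
  have hdν : ∀ A B, ν (d A B * g) = ν (p (A ∪ B) * g) - ν (p A * g) - ν (p B * g) := by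
    intro A B
    have e1 : d A B * g = p (A ∪ B) * g + (-(p A * g) + -(p B * g)) := by
      simp only [hd]; ring
    rw [e1, D.nadd _ _ (pgB _) (BLf_add (BLf_neg (pgB _)) (BLf_neg (pgB _))),
      D.nadd _ _ (BLf_neg (pgB _)) (BLf_neg (pgB _)), nu_neg D (pgB _), nu_neg D (pgB _)]
    ring
  have hdb : ∀ j I I', Disjoint I I' → |ν (d (W k j I) (W k j I') * g)| ≤ b := by
    intro j I I' hII
    apply hb
    · apply BL_small ht hE0 ha hL hg
      · intro u _
        have h1 := D.add _ _ (W_disj k j hII) u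
        have h2 := p2 (W k j I ∪ W k j I') u
        have h3 := p2 (W k j I) u
        have h4 := p2 (W k j I') u
        rw [abs_le] at h2 h3 h4
        have h5 : 3 * (H * t) ≤ E * t := by
          rw [hE]
          have : 3 * H ≤ ((k : ℝ) + 3) * (H + 1) := by nlinarith
          nlinarith
        rw [abs_le]
        simp only [hd, Pi.add_apply, Pi.neg_apply]
        constructor <;> linarith [h2.1, h2.2, h3.1, h3.2, h4.1, h4.2]
      · intro u v
        have h2 := p3 (W k j I ∪ W k j I') u v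
        have h3 := p3 (W k j I) u v
        have h4 := p3 (W k j I') u v
        have h5 : 3 * (1 / t * dist u v) ≤ E / t * dist u v := by
          have : (3 : ℝ) ≤ E := by rw [hE]; nlinarith
          have h6 : 0 ≤ 1 / t * dist u v := by positivity
          calc 3 * (1 / t * dist u v) ≤ E * (1 / t * dist u v) :=
                mul_le_mul_of_nonneg_right this h6
            _ = _ := by ring
        rw [abs_le] at h2 h3 h4 ⊢
        simp only [hd, Pi.add_apply, Pi.neg_apply]
        constructor <;> linarith [h2.1, h2.2, h3.1, h3.2, h4.1, h4.2]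
    · intro π hπ
      have h1 := hinv π (hinv4 π hπ)
      have h2 := W_inv (j := j) I π hπ hk
      have h3 := W_inv (j := j) I' π hπ hk
      have h4 := W_inv (j := j) (I ∪ I') π hπ hk
      funext u
      have e1 := congrFun h1 u
      have e2 := congrFun (p4 π (W k j I)) u
      have e3 := congrFun (p4 π (W k j I')) u
      have e4 := congrFun (p4 π (W k j I ∪ W k j I')) u
      rw [h2] at e2
      rw [h3] at e3
      rw [W_union, h4, ← W_union] at e4
      simp only [Function.comp, Pi.mul_apply, hd, Pi.add_apply, Pi.neg_apply] at e1 e2 e3 e4 ⊢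
      rw [e1, e2, e3, e4]
    · intro u hu
      apply hs
      intro h0
      apply hu
      simp [h0]
  -- the value on a class
  have hclass : ∀ j, j < k → |ν (p {n | n % k = j} * g)| ≤ 3 * b := by
    intro j hj
    have i01 : Disjoint ({0} : Set ℕ) {1} := by simp
    have i0123 : Disjoint ({0, 1} : Set ℕ) {2, 3} := by
      rw [Set.disjoint_left]; intro x hx; simp at hx ⊢; omega
    have u01 : ({0} : Set ℕ) ∪ {1} = {0, 1} := by
      ext x; simp only [mem_union, mem_insert_iff, mem_singleton_iff]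
    have u0123 : ({0, 1} : Set ℕ) ∪ {2, 3} = {0, 1, 2, 3} := by
      ext x; simp only [mem_union, mem_insert_iff, mem_singleton_iff]; tauto
    have hc : ∀ I : Set ℕ, (∃ i, i < 4 ∧ i ∈ I) → (∃ i, i < 4 ∧ i ∉ I) →
        ν (p (W k j I) * g) = ν (p (W k j {0}) * g) := by
      intro I h1 h2
      obtain ⟨π, hπ, hπ'⟩ := W_perm (k := k) (j := j) (I := {0}) (I' := I) hj ⟨0, by omega, rfl⟩
        ⟨1, by omega, by simp⟩ h1 h2
      rw [← hπ', hm π _ hπ]
    have c1 := hc {1} ⟨1, by omega, rfl⟩ ⟨0, by omega, by simp⟩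
    have c01 := hc {0, 1} ⟨1, by omega, by simp⟩ ⟨2, by omega, by simp⟩
    have c23 := hc {2, 3} ⟨2, by omega, by simp⟩ ⟨0, by omega, by simp⟩
    have e1 := hdν (W k j {0}) (W k j {1})
    have e2 := hdν (W k j {0, 1}) (W k j {2, 3})
    rw [W_union, u01, c1, c01] at e1
    rw [W_union, u0123, c01, c23, W_all] at e2
    have b1 := hdb j {0} {1} i01
    have b2 := hdb j {0, 1} {2, 3} i0123
    rw [abs_le] at b1 b2 ⊢
    constructor <;> linarith [b1.1, b1.2, b2.1, b2.2]
  -- the remainder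
  set q : S → ℝ := ∑ j ∈ Finset.range k, p {n | n % k = j} with hq
  set e0 : S → ℝ := 1 + -q with he0
  have hqB : BLf q := BLf_sum _ _ fun j _ => pB _
  have hqg : q * g = ∑ j ∈ Finset.range k, p {n | n % k = j} * g := by
    rw [hq, Finset.sum_mul]
  have hrem : |ν (e0 * g)| ≤ b := by
    apply hb
    · apply BL_small ht hE0 ha hL hg
      · intro u hu
        have h1 := psi_sum D k hk u
        rw [hs u hu] at h1
        have h2 : e0 u = ∑ j ∈ Finset.range k, (ψ {n | n % k = j} u - p {n | n % k = j} u) := by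
          rw [Finset.sum_sub_distrib, h1]
          simp only [he0, hq, Pi.add_apply, Pi.neg_apply, Pi.one_apply, Finset.sum_apply]
          ring
        rw [h2]
        refine (Finset.abs_sum_le_sum_abs _ _).trans ?_
        calc ∑ j ∈ Finset.range k, |ψ {n | n % k = j} u - p {n | n % k = j} u|
            ≤ ∑ j ∈ Finset.range k, H * t := by
              apply Finset.sum_le_sum
              intro j _
              rw [abs_sub_comm]
              exact p2 _ u
          _ = k * (H * t) := by simp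
          _ ≤ E * t := by
              rw [hE]
              have : (k : ℝ) * H ≤ ((k : ℝ) + 3) * (H + 1) := by nlinarith
              nlinarith
      · intro u v
        have h2 : e0 u - e0 v = ∑ j ∈ Finset.range k,
            (p {n | n % k = j} v - p {n | n % k = j} u) := by
          rw [Finset.sum_sub_distrib]
          simp only [he0, hq, Pi.add_apply, Pi.neg_apply, Pi.one_apply, Finset.sum_apply]
          ring
        rw [h2]
        refine (Finset.abs_sum_le_sum_abs _ _).trans ?_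
        calc ∑ j ∈ Finset.range k, |p {n | n % k = j} v - p {n | n % k = j} u|
            ≤ ∑ j ∈ Finset.range k, (1 / t * dist u v) := by
              apply Finset.sum_le_sum
              intro j _
              rw [abs_sub_comm]
              exact p3 _ u v
          _ = k * (1 / t * dist u v) := by simp
          _ ≤ E * (1 / t * dist u v) := by
              apply mul_le_mul_of_nonneg_right _ (by positivity)
              rw [hE]; nlinarith
          _ = E / t * dist u v := by ring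
    · intro π hπ
      have h1 := hinv π (hinv4 π hπ)
      have h5 : ∀ j, p {n | n % k = j} ∘ act π = p {n | n % k = j} := by
        intro j
        rw [p4]
        congr 1
        ext n
        show π n % k = j ↔ n % k = j
        rw [hinv4 π hπ n]
      funext u
      have e1 := congrFun h1 u
      simp only [Function.comp, Pi.mul_apply] at e1 ⊢
      rw [e1]
      congr 1
      simp only [he0, hq, Pi.add_apply, Pi.neg_apply, Finset.sum_apply, Pi.one_apply]
      congr 2
      apply Finset.sum_congr rfl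
      intro j _
      exact congrFun (h5 j) u
    · intro u hu
      apply hs
      intro h0
      apply hu
      simp [h0]
  have hfin : ν g = ν (e0 * g) + ∑ j ∈ Finset.range k, ν (p {n | n % k = j} * g) := by
    have e1 : g = e0 * g + q * g := by rw [he0]; ring
    have e0B : BLf e0 := by
      rw [he0]
      exact BLf_add (BLf_const 1) (BLf_neg hqB)
    conv_lhs => rw [e1]
    rw [D.nadd _ _ (BLf_mul e0B gB) (BLf_mul hqB gB), hqg, nu_sum D _ _ fun j _ => pgB _]
  rw [hfin]
  refine (abs_add_le _ _).trans ?_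
  have h1 : |∑ j ∈ Finset.range k, ν (p {n | n % k = j} * g)| ≤ k * (3 * b) := by
    refine (Finset.abs_sum_le_sum_abs _ _).trans ?_
    calc _ ≤ ∑ j ∈ Finset.range k, 3 * b :=
          Finset.sum_le_sum fun j hj => hclass j (Finset.mem_range.1 hj)
      _ = _ := by simp
  linarith

end main

theorem t : S_ABS := by
  intro S _ act hact hsur ψ H hψ01 hadd hhol hinv ν C hνadd hνb hνinv g a L hg hginv hsupp
  have hnadd : ∀ g h, BLf g → BLf h → ν (g + h) = ν g + ν h := by
    rintro g h ⟨a, L, _, _, h1⟩ ⟨a', L', _, _, h2⟩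
    exact hνadd g h (max a a') (max L L') (BL_mono h1 (le_max_left _ _) (le_max_left _ _))
      (BL_mono h2 (le_max_right _ _) (le_max_right _ _))
  have D : Dat act ψ (max H 0) ν :=
    { iso := hact
      sur := hsur
      H0 := le_max_right _ _
      p0 := fun A u => (hψ01 A u).1
      p1 := fun A u => (hψ01 A u).2
      add := hadd
      hol := fun A u v => (hhol A u v).trans
        (mul_le_mul_of_nonneg_right (le_max_left _ _) dist_nonneg)
      inv := hinv
      nadd := hnadd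
      ninv := fun π g hg => by
        obtain ⟨a, L, _, _, h1⟩ := hg
        exact hνinv π g a L h1 }
  rcases isEmpty_or_nonempty S with hS | ⟨⟨u0⟩⟩
  · have : g = 0 := funext fun u => hS.elim u
    rw [this]; exact nu_zero D
  obtain ⟨a, L, ha, hL, hg⟩ := BLf_of hg
  set c1 : ℝ := (((1 : ℕ) : ℝ) + 3) * (max H 0 + 1) with hc1
  set c2 : ℝ := (((1 * 4 : ℕ) : ℝ) + 3) * (max H 0 + 1) with hc2
  set c3 : ℝ := (((1 * 4 * 4 : ℕ) : ℝ) + 3) * (max H 0 + 1) with hc3
  have hH0 : 0 ≤ max H 0 := le_max_right _ _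
  have hc10 : 0 ≤ c1 := by positivity
  have hc20 : 0 ≤ c2 := by positivity
  have hc30 : 0 ≤ c3 := by positivity
  have hbound : ∀ t : ℝ, 0 < t → t ≤ 1 →
      |ν g| ≤ (3 * ((1 : ℕ) : ℝ) + 1) * ((3 * ((1 * 4 : ℕ) : ℝ) + 1) *
        ((3 * ((1 * 4 * 4 : ℕ) : ℝ) + 1) * (|C| * (c1 * c2 * c3 * (t * (4 * a + L)))))) := by
    intro t ht ht1
    apply step D 1 one_pos t ht g a L ha hL hg (fun π _ => hginv π) hsupp
    intro h1 hh1 hi1 hs1
    apply step D (1 * 4) (by norm_num) t ht h1 _ _ (by positivity) (by positivity) hh1 hi1 hs1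
    intro h2 hh2 hi2 hs2
    apply step D (1 * 4 * 4) (by norm_num) t ht h2 _ _ (by positivity) (by positivity) hh2 hi2 hs2
    intro h3 hh3 hi3 hs3
    have := hνb h3 _ _ hh3
    refine this.trans ?_
    rw [← hc1, ← hc2, ← hc3]
    have e1 : c3 * t * (c2 * t * (c1 * t * a)) + c3 * (t * (c2 * (t * (c1 * (t * L + a / t)) +
        c1 * t * a / t)) + c2 * t * (c1 * t * a) / t)
        = c1 * c2 * c3 * (t * (t ^ 2 * a + t ^ 2 * L + 3 * a)) := by
      field_simp
      ring
    rw [e1]
    have e2 : t ^ 2 ≤ 1 := pow_le_one₀ ht.le ht1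
    have e3 : c1 * c2 * c3 * (t * (t ^ 2 * a + t ^ 2 * L + 3 * a))
        ≤ c1 * c2 * c3 * (t * (4 * a + L)) := by
      apply mul_le_mul_of_nonneg_left _ (by positivity)
      apply mul_le_mul_of_nonneg_left _ ht.le
      nlinarith [mul_le_mul_of_nonneg_right e2 ha, mul_le_mul_of_nonneg_right e2 hL]
    have e4 : 0 ≤ c1 * c2 * c3 * (t * (t ^ 2 * a + t ^ 2 * L + 3 * a)) := by positivity
    calc C * _ ≤ |C| * _ := mul_le_mul_of_nonneg_right (le_abs_self C) e4
      _ ≤ |C| * _ := mul_le_mul_of_nonneg_left e3 (abs_nonneg C)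
  by_contra hne
  have hpos : 0 < |ν g| := abs_pos.2 hne
  set K : ℝ := (3 * ((1 : ℕ) : ℝ) + 1) * ((3 * ((1 * 4 : ℕ) : ℝ) + 1) *
        ((3 * ((1 * 4 * 4 : ℕ) : ℝ) + 1) * (|C| * (c1 * c2 * c3 * (4 * a + L))))) with hK
  have hK0 : 0 ≤ K := by positivity
  set t : ℝ := min 1 (|ν g| / (2 * (K + 1))) with htdef
  have ht : 0 < t := lt_min one_pos (by positivity)
  have h1 := hbound t ht (min_le_left _ _)
  have h2 : |ν g| ≤ K * t := by
    refine h1.trans (le_of_eq ?_)
    rw [hK]; ring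
  have h3 : t * (2 * (K + 1)) ≤ |ν g| := by
    have := min_le_right 1 (|ν g| / (2 * (K + 1)))
    rw [← htdef] at this
    exact (le_div_iff₀ (by positivity)).1 this
  nlinarith

end Pool.Agent.X107.EL.ABS
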